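import Mathlib

/-!
# GK/T4: tail of the binomial sum
-/

set_option autoImplicit false

namespace Pool.Agent.N853.GK.T4

open Finset

/-- geometric tail -/
theorem geo {T : ℕ → ℝ} {r : ℝ} {a : ℕ} (N : ℕ)
    (hr : ∀ j, a ≤ j → j < N → T (j + 1) ≤ r * T j) (n : ℕ) (hn : a + n ≤ N) :
    (1 - r) * ∑ j ∈ Icc a (a + n), T j ≤ T a - r * T (a + n) := by
  induction n with
  | zero => simp; linarith
  | succ n ih =>
    have h1 := ih (by omega)
    have h2 := hr (a + n) (by omega) (by omega)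
    rw [show a + (n + 1) = (a + n) + 1 by ring, Finset.sum_Icc_succ_top (by omega), mul_add]
    linarith

/-- T4 -/
theorem tail_sum {k : ℕ} (hk : 6 ≤ k) {T : ℕ → ℝ} {e s : ℝ} (he : e = 1 / (k : ℝ)) (hs0 : 0 ≤ s)
    (hs1 : s ≤ 31 / 25) (hT : ∀ j, 0 ≤ T j)
    (hr : ∀ j : ℕ, 4 ≤ j → j < 2 * k → T (j + 1) ≤ 2 / ((j : ℝ) + 1) * (1 - j * e / 2) * s * T j) :
    ∑ j ∈ Icc 4 (2 * k), T j ≤ T 4 *
      (1 + 2 / 5 * (1 - 2 * e) * s * (1 + 1 / 3 * (1 - 5 / 2 * e) * s *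
        (1 + 41 / 100 * (1 - 3 * e) * s))) := by
  have hk' : (6 : ℝ) ≤ k := by exact_mod_cast hk
  have he0 : 0 < e := by rw [he]; positivity
  have he1 : e ≤ 1 / 6 := by
    rw [he]
    exact one_div_le_one_div_of_le (by norm_num) hk'
  have h5 := hr 4 (by norm_num) (by omega)
  have h6 := hr 5 (by norm_num) (by omega)
  have h7 := hr 6 (by norm_num) (by omega)
  have h8 := hr 7 (by norm_num) (by omega)
  norm_num at h5 h6 h7 h8
  have hg := geo (T := T) (r := 2 * s / 9) (a := 8) (2 * k) (fun j hj hj2 => by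
    have h := hr j (by omega) hj2
    refine h.trans ?_
    refine mul_le_mul_of_nonneg_right ?_ (hT j)
    have hj' : (8 : ℝ) ≤ j := by exact_mod_cast hj
    have e1 : 2 / ((j : ℝ) + 1) ≤ 2 / 9 := by
      apply div_le_div_of_nonneg_left (by norm_num) (by norm_num) (by linarith)
    have e2 : 1 - (j : ℝ) * e / 2 ≤ 1 := by
      have : 0 ≤ (j : ℝ) * e / 2 := by positivity
      linarith
    have e3 : 0 ≤ 1 - (j : ℝ) * e / 2 := by
      rw [he]
      have hj3 : (j : ℝ) ≤ 2 * k := by exact_mod_cast hj2.le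
      have hk0 : (0 : ℝ) < k := by linarith
      have : (j : ℝ) * (1 / k) / 2 ≤ 1 := by
        rw [mul_one_div, div_div, div_le_one (by positivity)]
        linarith
      linarith
    have e4 : 0 ≤ 2 / ((j : ℝ) + 1) := by positivity
    have e5 : 2 / ((j : ℝ) + 1) * (1 - j * e / 2) ≤ 2 / 9 := by
      calc 2 / ((j : ℝ) + 1) * (1 - j * e / 2) ≤ 2 / 9 * 1 :=
            mul_le_mul e1 e2 e3 (by norm_num)
        _ = 2 / 9 := by ring
    nlinarith) (2 * k - 8) (by omega)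
  rw [show 8 + (2 * k - 8) = 2 * k by omega] at hg
  have hsum : ∑ j ∈ Icc 4 (2 * k), T j = T 4 + T 5 + T 6 + T 7 + ∑ j ∈ Icc 8 (2 * k), T j := by
    have h1 : ∀ a : ℕ, a ≤ 2 * k → ∑ j ∈ Icc a (2 * k), T j = T a + ∑ j ∈ Icc (a + 1) (2 * k), T j := by
      intro a ha
      rw [← Finset.insert_Icc_add_one_left_eq_Icc ha, Finset.sum_insert (by simp)]
    rw [h1 4 (by omega), h1 5 (by omega), h1 6 (by omega), h1 7 (by omega)]
    ring
  rw [hsum]
  set R := ∑ j ∈ Icc 8 (2 * k), T j with hR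
  have t4 := hT 4
  have t5 := hT 5
  have t6 := hT 6
  have t7 := hT 7
  have t8 := hT 8
  have t2k := hT (2 * k)
  -- the geometric tail
  have hR8 : (1 - 2 * s / 9) * R ≤ T 8 := by
    have : 0 ≤ 2 * s / 9 * T (2 * k) := by positivity
    linarith
  have hT8 : T 8 ≤ s / 4 * T 7 := by
    have : (1 / 4 * (1 - 7 * e / 2) * s) ≤ s / 4 := by nlinarith
    calc T 8 ≤ 1 / 4 * (1 - 7 * e / 2) * s * T 7 := h8
      _ ≤ s / 4 * T 7 := mul_le_mul_of_nonneg_right this t7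
  have hR0 : 0 ≤ R := Finset.sum_nonneg fun j _ => hT j
  have hR7 : R ≤ 43 / 100 * T 7 := by
    -- (s/4)/(1-2s/9) ≤ 0.4281
    have h1 : (1 - 2 * s / 9) * R ≤ s / 4 * T 7 := hR8.trans hT8
    have h2 : 1 - 2 * (31 / 25) / 9 ≤ 1 - 2 * s / 9 := by linarith
    have h3 : (1 - 2 * (31 / 25) / 9) * R ≤ (31 / 25) / 4 * T 7 := by
      calc (1 - 2 * (31 / 25) / 9) * R ≤ (1 - 2 * s / 9) * R := mul_le_mul_of_nonneg_right h2 hR0
        _ ≤ s / 4 * T 7 := h1
        _ ≤ (31 / 25) / 4 * T 7 := by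
          apply mul_le_mul_of_nonneg_right _ t7
          linarith
    norm_num at h3
    nlinarith
  have f5 : 0 ≤ 2 / 5 * (1 - 2 * e) * s := by
    have : 0 ≤ 1 - 2 * e := by linarith
    positivity
  have f6 : 0 ≤ 1 / 3 * (1 - 5 / 2 * e) * s := by
    have : 0 ≤ 1 - 5 / 2 * e := by linarith
    positivity
  have f7 : 0 ≤ (1 - 3 * e) * s := by
    have : 0 ≤ 1 - 3 * e := by linarith
    positivity
  have g5 : T 5 ≤ 2 / 5 * (1 - 2 * e) * s * T 4 := by
    refine h5.trans (le_of_eq ?_)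
    ring
  have g6 : T 6 ≤ 1 / 3 * (1 - 5 / 2 * e) * s * T 5 := by
    refine h6.trans (le_of_eq ?_)
    ring
  have g7 : T 7 ≤ 2 / 7 * (1 - 3 * e) * s * T 6 := by
    refine h7.trans (le_of_eq ?_)
    ring
  have g8 : T 7 + R ≤ 41 / 100 * (1 - 3 * e) * s * T 6 := by
    have : 0 ≤ (1 - 3 * e) * s * T 6 := mul_nonneg f7 t6
    nlinarith
  have g9 : T 6 + (T 7 + R) ≤ (1 + 41 / 100 * (1 - 3 * e) * s) * T 6 := by linarith
  have k1 : 0 ≤ 1 + 41 / 100 * (1 - 3 * e) * s := by nlinarith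
  have g10 : T 5 + (T 6 + (T 7 + R)) ≤
      (1 + 1 / 3 * (1 - 5 / 2 * e) * s * (1 + 41 / 100 * (1 - 3 * e) * s)) * T 5 := by
    have := mul_le_mul_of_nonneg_left g6 k1
    linarith
  have k2 : 0 ≤ 1 + 1 / 3 * (1 - 5 / 2 * e) * s * (1 + 41 / 100 * (1 - 3 * e) * s) := by
    have := mul_nonneg f6 k1
    linarith
  have := mul_le_mul_of_nonneg_left g5 k2
  linarith

end Pool.Agent.N853.GK.T4
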