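import Pool.Agent.N332.GK.Defs
import Pool.Agent.N615.LS.Star3

/-!
# GK/T6: the two block inequality
-/

set_option autoImplicit false

namespace Pool.Agent.N853.GK.T6

open Finset Pool.Agent.H384R3.SPk Pool.Agent.N356.SP Pool.Agent.N332.GK

/-- the terms -/
noncomputable def Tk (k : ℕ) (t : ℝ) (j : ℕ) : ℝ :=
  ((2 * k).choose j : ℝ) * t ^ j *
    (ck k / (2 * (k : ℝ) - 1)) ^ ((2 * (k : ℝ) - j) / (2 * (k : ℝ) - 2))

/-- the statement of S1 for one set of classes -/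
def Stark {m : ℕ} (C : Finset (ZMod m)) (θ : ZMod m → ZMod m → ℝ) : Prop :=
  ∀ {k : ℕ}, 6 ≤ k → ∀ {g f : ℤ →₀ ℝ}, GoodC C θ → (∀ n, 0 ≤ g n) → (∀ n, 0 ≤ f n) →
    (∀ n ∈ g.support, ((n : ℤ) : ZMod m) = 0) → (∀ n ∈ f.support, ((n : ℤ) : ZMod m) ∈ C) →
    ∀ {G y : ℝ}, 0 < G → 0 ≤ y → Mc k g ≤ G → Mc k f ≤ G * y ^ k →
    0 ≤ AJ (2 * k - 2) 2 g f ∧ (2 * (k : ℝ) - 1) / ck k * AJ (2 * k - 2) 2 g f ≤ G * y ∧
      AJ (2 * k - 3) 3 g f ^ 2 ≤ Kb (1 / (k : ℝ)) * (ck k / (2 * (k : ℝ) - 1)) ^ 3 * G * y ^ 2 *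
        (G * y - (2 * (k : ℝ) - 1) / ck k * AJ (2 * k - 2) 2 g f)

variable {m : ℕ} {C : Finset (ZMod m)} {θ : ZMod m → ZMod m → ℝ} {g f : ℤ →₀ ℝ}

theorem ck_pos {k : ℕ} (hk : 1 ≤ k) : 0 < ck k := by
  unfold ck
  apply Real.rpow_pos_of_pos
  have hk' : (1 : ℝ) ≤ k := by exact_mod_cast hk
  have h1 : (0 : ℝ) < (2 * k).choose k := by
    exact_mod_cast Nat.choose_pos (by omega)
  have h2 : (0 : ℝ) < 2 * (2 * (k : ℝ) - 1) := by linarith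
  positivity

/-- T6: the two block inequality -/
theorem two_block
    (T1 : ∀ (k : ℕ) (g f : ℤ →₀ ℝ) (t : ℝ), Mc k (g + t • f) =
      ∑ j ∈ range (2 * k + 1), ((2 * k).choose j : ℝ) * t ^ j * AJ (2 * k - j) j g f)
    (T2 : ∀ {k j : ℕ}, 2 ≤ k → 2 ≤ j → j ≤ 2 * k → ∀ (g f : ℤ →₀ ℝ) {c α : ℝ}, 0 ≤ c → 0 < α →
      AJ (2 * k - 2) 2 g f ≤ α * c → Mc k f ≤ c →
      |AJ (2 * k - j) j g f| ≤ c * α ^ ((2 * (k : ℝ) - j) / (2 * (k : ℝ) - 2)))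
    (T3 : ∀ {k : ℕ}, 6 ≤ k → ∀ {t : ℝ}, 0 ≤ t →
      (∀ j, 0 ≤ Tk k t j) ∧
      Tk k t 4 ≤ (√(k * ck k) * t) ^ 4 * ((1 - 1 / (k : ℝ)) * (2 - 3 * (1 / (k : ℝ))) *
        (2 - 7 / 4 * (1 / (k : ℝ))) / (6 * (2 - 1 / (k : ℝ)))) ∧
      ∀ j : ℕ, 2 ≤ j → j < 2 * k →
        Tk k t (j + 1) ≤ 2 / ((j : ℝ) + 1) * (1 - j * (1 / (k : ℝ)) / 2) * (√(k * ck k) * t) *
          Tk k t j)
    (T4 : ∀ {k : ℕ}, 6 ≤ k → ∀ {T : ℕ → ℝ} {e s : ℝ}, e = 1 / (k : ℝ) → 0 ≤ s → s ≤ 31 / 25 →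
      (∀ j, 0 ≤ T j) →
      (∀ j : ℕ, 4 ≤ j → j < 2 * k → T (j + 1) ≤ 2 / ((j : ℝ) + 1) * (1 - j * e / 2) * s * T j) →
      ∑ j ∈ Icc 4 (2 * k), T j ≤ T 4 *
        (1 + 2 / 5 * (1 - 2 * e) * s * (1 + 1 / 3 * (1 - 5 / 2 * e) * s *
          (1 + 41 / 100 * (1 - 3 * e) * s))))
    (T5 : ∀ {k : ℕ}, 6 ≤ k → ∀ {t A2 A3 : ℝ}, 0 ≤ t →
      (2 * (k : ℝ) - 1) / ck k * A2 ≤ 1 →
      A3 ^ 2 ≤ Kb (1 / (k : ℝ)) * (ck k / (2 * (k : ℝ) - 1)) ^ 3 *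
        (1 - (2 * (k : ℝ) - 1) / ck k * A2) →
      ((2 * k).choose 2 : ℝ) * t ^ 2 * A2 + ((2 * k).choose 3 : ℝ) * t ^ 3 * A3 ≤
        (√(k * ck k) * t) ^ 2 + (√(k * ck k) * t) ^ 4 *
          (Kb (1 / (k : ℝ)) * (1 - 1 / (k : ℝ)) ^ 2 / (9 * (2 - 1 / (k : ℝ)))))
    (S1 : Stark C θ)
    (h : GoodC C θ) {k : ℕ} (hk : 6 ≤ k) (hg0 : ∀ n, 0 ≤ g n) (hf0 : ∀ n, 0 ≤ f n)
    (hg : ∀ n ∈ g.support, ((n : ℤ) : ZMod m) = 0)
    (hf : ∀ n ∈ f.support, ((n : ℤ) : ZMod m) ∈ C) (hG : Mc k g ≤ ((2 * k).choose k : ℝ))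
    (hF : Mc k f ≤ ((2 * k).choose k : ℝ)) {t : ℝ} (ht0 : 0 ≤ t)
    (ht1 : √(k * ck k) * t ≤ 31 / 25) :
    Mc k (g + t • f) ≤ ((2 * k).choose k : ℝ) * Nk (1 / (k : ℝ)) (√(k * ck k) * t) := by
  have hk' : (6 : ℝ) ≤ k := by exact_mod_cast hk
  have hc : (0 : ℝ) < ((2 * k).choose k : ℝ) := by exact_mod_cast Nat.choose_pos (by omega)
  have hck : 0 < ck k := ck_pos (by omega)
  have h2k : (0 : ℝ) < 2 * (k : ℝ) - 1 := by linarith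
  set c : ℝ := ((2 * k).choose k : ℝ) with hcdef
  set s : ℝ := √(k * ck k) * t with hs
  have hs0 : 0 ≤ s := by rw [hs]; positivity
  obtain ⟨S2, S3, S4⟩ := S1 hk h hg0 hf0 hg hf hc zero_le_one hG (by rw [one_pow, mul_one]; exact hF)
  rw [mul_one] at S3
  rw [one_pow, mul_one, mul_one] at S4
  set J2 := AJ (2 * k - 2) 2 g f with hJ2
  set J3 := AJ (2 * k - 3) 3 g f with hJ3
  have H1 : AJ (2 * k - 1) 1 g f = 0 := Pool.Agent.N615.LS.A1_eq h.neg h.ne hg0 hf0 hg hf _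
  have H0 : AJ (2 * k) 0 g f = Mc k g := by
    unfold AJ Mc
    simp
  have hα : 0 < ck k / (2 * (k : ℝ) - 1) := by positivity
  have h2 : J2 ≤ ck k / (2 * (k : ℝ) - 1) * c := by
    have e : J2 = ck k / (2 * (k : ℝ) - 1) * ((2 * (k : ℝ) - 1) / ck k * J2) := by
      field_simp
    rw [e]
    exact mul_le_mul_of_nonneg_left S3 hα.le
  -- the first terms
  have hhead := T5 hk (t := t) (A2 := J2 / c) (A3 := J3 / c) ht0 (by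
    rw [← mul_div_assoc, div_le_one hc]
    exact S3) (by
    have e : Kb (1 / (k : ℝ)) * (ck k / (2 * (k : ℝ) - 1)) ^ 3 *
        (1 - (2 * (k : ℝ) - 1) / ck k * (J2 / c)) =
        (Kb (1 / (k : ℝ)) * (ck k / (2 * (k : ℝ) - 1)) ^ 3 * c *
          (c - (2 * (k : ℝ) - 1) / ck k * J2)) / c ^ 2 := by
      field_simp
    rw [e, div_pow]
    exact div_le_div_of_nonneg_right S4 (by positivity))
  -- the tail
  obtain ⟨t0, t4, tr⟩ := T3 hk ht0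
  have htail := T4 hk (T := Tk k t) (e := 1 / (k : ℝ)) (s := s) rfl hs0 ht1 t0
    (fun j hj hj2 => tr j (by omega) hj2)
  have hterm : ∀ j ∈ Icc 4 (2 * k), ((2 * k).choose j : ℝ) * t ^ j * AJ (2 * k - j) j g f ≤
      c * Tk k t j := by
    intro j hj
    rw [mem_Icc] at hj
    have h1 := T2 (k := k) (j := j) (by omega) (by omega) hj.2 g f hc.le hα h2 hF
    have h3 : AJ (2 * k - j) j g f ≤
      c * (ck k / (2 * (k : ℝ) - 1)) ^ ((2 * (k : ℝ) - j) / (2 * (k : ℝ) - 2)) :=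
      (le_abs_self _).trans h1
    calc ((2 * k).choose j : ℝ) * t ^ j * AJ (2 * k - j) j g f ≤ ((2 * k).choose j : ℝ) * t ^ j *
          (c * (ck k / (2 * (k : ℝ) - 1)) ^ ((2 * (k : ℝ) - j) / (2 * (k : ℝ) - 2))) :=
          mul_le_mul_of_nonneg_left h3 (by positivity)
      _ = c * Tk k t j := by
          unfold Tk
          ring
  have hsplit : Mc k (g + t • f) = Mc k g + (((2 * k).choose 2 : ℝ) * t ^ 2 * J2 +
      ((2 * k).choose 3 : ℝ) * t ^ 3 * J3) +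
      ∑ j ∈ Icc 4 (2 * k), ((2 * k).choose j : ℝ) * t ^ j * AJ (2 * k - j) j g f := by
    rw [T1]
    have e1 : range (2 * k + 1) = Icc 0 (2 * k) := by
      ext j
      simp only [mem_range, mem_Icc]
      omega
    have h1 : ∀ (F : ℕ → ℝ) (a : ℕ), a ≤ 2 * k →
        ∑ j ∈ Icc a (2 * k), F j = F a + ∑ j ∈ Icc (a + 1) (2 * k), F j := by
      intro F a ha
      rw [← Finset.insert_Icc_add_one_left_eq_Icc ha, Finset.sum_insert (by simp)]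
    rw [e1, h1 _ 0 (by omega), h1 _ 1 (by omega), h1 _ 2 (by omega), h1 _ 3 (by omega)]
    simp only [Nat.choose_zero_right, Nat.cast_one, pow_zero, one_mul, Nat.sub_zero, H0, H1,
      mul_zero, zero_add, Nat.reduceAdd]
    ring
  rw [hsplit]
  have hsum := Finset.sum_le_sum hterm
  rw [← Finset.mul_sum] at hsum
  have hhead' : ((2 * k).choose 2 : ℝ) * t ^ 2 * J2 + ((2 * k).choose 3 : ℝ) * t ^ 3 * J3 ≤
      c * (s ^ 2 + s ^ 4 *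
        (Kb (1 / (k : ℝ)) * (1 - 1 / (k : ℝ)) ^ 2 / (9 * (2 - 1 / (k : ℝ))))) := by
    have := mul_le_mul_of_nonneg_left hhead hc.le
    refine le_trans (le_of_eq ?_) this
    field_simp
  set e : ℝ := 1 / (k : ℝ) with he
  have he0 : 0 < e := by rw [he]; positivity
  have he1 : e ≤ 1 / 6 := by
    rw [he]
    exact one_div_le_one_div_of_le (by norm_num) hk'
  set Z : ℝ := 1 + 2 / 5 * (1 - 2 * e) * s * (1 + 1 / 3 * (1 - 5 / 2 * e) * s *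
        (1 + 41 / 100 * (1 - 3 * e) * s)) with hZ
  have hZ0 : 0 ≤ Z := by
    have f1 : 0 ≤ 1 - 2 * e := by linarith
    have f2 : 0 ≤ 1 - 5 / 2 * e := by linarith
    have f3 : 0 ≤ 1 - 3 * e := by linarith
    rw [hZ]
    positivity
  have htail2 : ∑ j ∈ Icc 4 (2 * k), Tk k t j ≤
      s ^ 4 * ((1 - e) * (2 - 3 * e) * (2 - 7 / 4 * e) / (6 * (2 - e)) * Z) := by
    refine htail.trans ?_
    rw [← mul_assoc]
    exact mul_le_mul_of_nonneg_right t4 hZ0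
  have h5 := mul_le_mul_of_nonneg_left htail2 hc.le
  have hN : Nk e s = 1 + s ^ 2 + s ^ 4 * (Kb e * (1 - e) ^ 2 / (9 * (2 - e)) +
      (1 - e) * (2 - 3 * e) * (2 - 7 / 4 * e) / (6 * (2 - e)) * Z) := rfl
  rw [hN]
  nlinarith [hG, hsum, h5, hhead']

end Pool.Agent.N853.GK.T6
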