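import Pool.Agent.N869.GK.StmM

/-!
# GK/M-CJ6: conjugate local matrices come from a permutation of the roots
-/

set_option autoImplicit false

namespace Pool.Agent.N853.GK.CJ6

open Finset
open Pool.Agent.N869.GK Pool.Agent.N869.GK.M

theorem dot_single {r : ℕ} (x : Gr r) (i : Fin r) : dot x (Pi.single i 1) = x i := by
  unfold dot
  rw [Finset.sum_eq_single i]
  · simp
  · intro j _ hj
    simp [hj]
  · simp

theorem aux : ∀ p q r s : ZMod 2, p * s - q * r ≠ 0 →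
    (p = 1 ∧ q = 0 ∧ r = 0 ∧ s = 1) ∨ (p = 0 ∧ q = 1 ∧ r = 1 ∧ s = 0) ∨
    (p = 1 ∧ q = 1 ∧ r = 0 ∧ s = 1) ∨ (p = 1 ∧ q = 0 ∧ r = 1 ∧ s = 1) ∨
    (p = 0 ∧ q = 1 ∧ r = 1 ∧ s = 1) ∨ (p = 1 ∧ q = 1 ∧ r = 1 ∧ s = 0) := by decide

/-- the four equations -/
def Eqs (p q r s l a b m l' a' b' : ZMod 2) : Prop :=
  p * l + q * b = l' * p + a' * r ∧ p * a + q * (l + m) = l' * q + a' * s ∧
  r * l + s * b = b' * p + (l' + m) * r ∧ r * a + s * (l + m) = b' * q + (l' + m) * s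

instance (p q r s l a b m l' a' b' : ZMod 2) : Decidable (Eqs p q r s l a b m l' a' b') := by
  unfold Eqs; infer_instance

theorem e1 : ∀ l a b m l' a' b' : ZMod 2, Eqs 1 0 0 1 l a b m l' a' b' →
    l' = l ∧ a' = a ∧ b' = b := by decide

theorem e2 : ∀ l a b m l' a' b' : ZMod 2, Eqs 0 1 1 0 l a b m l' a' b' →
    l' = l + m ∧ a' = b ∧ b' = a := by decide

theorem e3 : ∀ l a b m l' a' b' : ZMod 2, Eqs 1 1 0 1 l a b m l' a' b' →
    l' = l + b ∧ a' = a + b + m ∧ b' = b := by decide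

theorem e4 : ∀ l a b m l' a' b' : ZMod 2, Eqs 1 0 1 1 l a b m l' a' b' →
    l' = l + a ∧ a' = a ∧ b' = a + b + m := by decide

theorem e5 : ∀ l a b m l' a' b' : ZMod 2, Eqs 0 1 1 1 l a b m l' a' b' →
    l' = l + m + b ∧ a' = b ∧ b' = a + b + m := by decide

theorem e6 : ∀ l a b m l' a' b' : ZMod 2, Eqs 1 1 1 0 l a b m l' a' b' →
    l' = l + m + a ∧ a' = a + b + m ∧ b' = a := by decide

theorem t_CJ6 : S_CJ6 := by
  intro r D D' hem h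
  obtain ⟨P, hP, h⟩ := not_not.1 h
  have hE : ∀ i : Fin r, Eqs (P 0 0) (P 0 1) (P 1 0) (P 1 1) (D.ll i) (D.aa i) (D.bb i) (D.em i)
      (D'.ll i) (D'.aa i) (D'.bb i) := by
    intro i
    have h1 := h (Pi.single i 1)
    have h2 : ∀ a b : Fin 2, (P * Mt D (Pi.single i 1)) a b = (Mt D' (Pi.single i 1) * P) a b :=
      fun a b => by rw [h1]
    simp only [Mt, dot_single, hem] at h2
    refine ⟨?_, ?_, ?_, ?_⟩
    · have := h2 0 0
      simpa [Matrix.mul_apply, Fin.sum_univ_two] using this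
    · have := h2 0 1
      simpa [Matrix.mul_apply, Fin.sum_univ_two] using this
    · have := h2 1 0
      simpa [Matrix.mul_apply, Fin.sum_univ_two] using this
    · have := h2 1 1
      simpa [Matrix.mul_apply, Fin.sum_univ_two] using this
  have hdet : P 0 0 * P 1 1 - P 0 1 * P 1 0 ≠ 0 := by
    rw [← Matrix.det_fin_two]
    exact ((Matrix.isUnit_iff_isUnit_det P).1 hP).ne_zero
  rcases aux _ _ _ _ hdet with ⟨h1, h2, h3, h4⟩ | ⟨h1, h2, h3, h4⟩ | ⟨h1, h2, h3, h4⟩ |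
    ⟨h1, h2, h3, h4⟩ | ⟨h1, h2, h3, h4⟩ | ⟨h1, h2, h3, h4⟩ <;> rw [h1, h2, h3, h4] at hE
  · exact Or.inl ⟨funext fun i => (e1 _ _ _ _ _ _ _ (hE i)).1,
      funext fun i => (e1 _ _ _ _ _ _ _ (hE i)).2.1, funext fun i => (e1 _ _ _ _ _ _ _ (hE i)).2.2⟩
  · exact Or.inr (Or.inl ⟨funext fun i => (e2 _ _ _ _ _ _ _ (hE i)).1,
      funext fun i => (e2 _ _ _ _ _ _ _ (hE i)).2.1, funext fun i => (e2 _ _ _ _ _ _ _ (hE i)).2.2⟩)
  · exact Or.inr (Or.inr (Or.inl ⟨funext fun i => (e3 _ _ _ _ _ _ _ (hE i)).1,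
      funext fun i => (e3 _ _ _ _ _ _ _ (hE i)).2.1, funext fun i => (e3 _ _ _ _ _ _ _ (hE i)).2.2⟩))
  · exact Or.inr (Or.inr (Or.inr (Or.inl ⟨funext fun i => (e4 _ _ _ _ _ _ _ (hE i)).1,
      funext fun i => (e4 _ _ _ _ _ _ _ (hE i)).2.1,
      funext fun i => (e4 _ _ _ _ _ _ _ (hE i)).2.2⟩)))
  · exact Or.inr (Or.inr (Or.inr (Or.inr (Or.inl ⟨funext fun i => (e5 _ _ _ _ _ _ _ (hE i)).1,
      funext fun i => (e5 _ _ _ _ _ _ _ (hE i)).2.1,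
      funext fun i => (e5 _ _ _ _ _ _ _ (hE i)).2.2⟩))))
  · exact Or.inr (Or.inr (Or.inr (Or.inr (Or.inr ⟨funext fun i => (e6 _ _ _ _ _ _ _ (hE i)).1,
      funext fun i => (e6 _ _ _ _ _ _ _ (hE i)).2.1,
      funext fun i => (e6 _ _ _ _ _ _ _ (hE i)).2.2⟩))))

end Pool.Agent.N853.GK.CJ6
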