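import Pool.Agent.N869.GK.StmN

/-!
# GK/N-SCALE: scaling the roots by a square
-/

set_option autoImplicit false

namespace Pool.Agent.N853.GK.SCALE

open Pool.Agent.TH841.SH (LocC SelG)
open Pool.Agent.N869.GK.N

theorem loc_up {K : Type} [Field K] [CharZero K] (a b c s d1 d2 : ℤ) (hs : s ≠ 0)
    (h : LocC K a b c d1 d2) : LocC K (s ^ 2 * a) (s ^ 2 * b) (s ^ 2 * c) d1 d2 := by
  obtain ⟨x, y, hy, h1, h2, h3⟩ := h
  have hs' : (s : K) ≠ 0 := by exact_mod_cast hs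
  refine ⟨(s : K) ^ 2 * x, (s : K) ^ 3 * y, mul_ne_zero (pow_ne_zero _ hs') hy, ?_, ?_, ?_⟩
  · push_cast
    have : ((s : K) ^ 3 * y) ^ 2 = (s : K) ^ 6 * y ^ 2 := by ring
    rw [this, h1]
    ring
  · obtain ⟨r, hr⟩ := h2
    refine ⟨s * r, ?_⟩
    push_cast
    have : (((s : K) ^ 2 * x - (s : K) ^ 2 * a) * d1) = (s : K) ^ 2 * ((x - a) * d1) := by ring
    rw [this, hr]
    ring
  · obtain ⟨r, hr⟩ := h3
    refine ⟨s * r, ?_⟩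
    push_cast
    have : (((s : K) ^ 2 * x - (s : K) ^ 2 * b) * d2) = (s : K) ^ 2 * ((x - b) * d2) := by ring
    rw [this, hr]
    ring

theorem loc_down {K : Type} [Field K] [CharZero K] (a b c s d1 d2 : ℤ) (hs : s ≠ 0)
    (h : LocC K (s ^ 2 * a) (s ^ 2 * b) (s ^ 2 * c) d1 d2) : LocC K a b c d1 d2 := by
  obtain ⟨x, y, hy, h1, h2, h3⟩ := h
  have hs' : (s : K) ≠ 0 := by exact_mod_cast hs
  push_cast at h1 h2 h3
  have hi := mul_inv_cancel₀ hs'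
  have hi2 : (s : K) ^ 2 * ((s : K)⁻¹) ^ 2 = 1 := by rw [← mul_pow, hi, one_pow]
  refine ⟨((s : K)⁻¹) ^ 2 * x, ((s : K)⁻¹) ^ 3 * y,
    mul_ne_zero (pow_ne_zero _ (inv_ne_zero hs')) hy, ?_, ?_, ?_⟩
  · have : (((s : K)⁻¹) ^ 3 * y) ^ 2 = (((s : K)⁻¹) ^ 2) ^ 3 * y ^ 2 := by ring
    rw [this, h1]
    have e : ∀ z : K, ((s : K)⁻¹) ^ 2 * x - z = ((s : K)⁻¹) ^ 2 * (x - (s : K) ^ 2 * z) := by
      intro z
      rw [mul_sub, ← mul_assoc, mul_comm (((s : K)⁻¹) ^ 2) ((s : K) ^ 2), hi2, one_mul]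
    rw [e, e, e]
    ring
  · obtain ⟨r, hr⟩ := h2
    refine ⟨(s : K)⁻¹ * r, ?_⟩
    have : (((s : K)⁻¹) ^ 2 * x - a) * d1 =
        ((s : K)⁻¹) ^ 2 * ((x - (s : K) ^ 2 * a) * d1) := by
      linear_combination (-(a : K) * d1) * (1 - hi2)
    rw [this, hr]
    ring
  · obtain ⟨r, hr⟩ := h3
    refine ⟨(s : K)⁻¹ * r, ?_⟩
    have : (((s : K)⁻¹) ^ 2 * x - b) * d2 =
        ((s : K)⁻¹) ^ 2 * ((x - (s : K) ^ 2 * b) * d2) := by
      linear_combination (-(b : K) * d2) * (1 - hi2)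
    rw [this, hr]
    ring

theorem t_SCALE : S_SCALE := by
  intro a b c s hs
  ext d
  constructor
  · rintro ⟨h1, h2, h3, h4⟩
    exact ⟨h1, h2, loc_down a b c s _ _ hs h3, fun p _ => loc_down a b c s _ _ hs (h4 p)⟩
  · rintro ⟨h1, h2, h3, h4⟩
    exact ⟨h1, h2, loc_up a b c s _ _ hs h3, fun p _ => loc_up a b c s _ _ hs (h4 p)⟩

end Pool.Agent.N853.GK.SCALE
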