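import Pool.Agent.N869.GK.L.Stm

/-!
# Project GK, piece SUB: restriction of the Selmer equations to the vertices in `T`
-/

set_option autoImplicit false

open scoped Classical

namespace Pool.Agent.N853.GK

open Finset
open Pool.Agent.N869.GK

theorem t_SUB : S_SUB := by
  intro r D R R' f hf lab N T T' hT
  have hTm : T = T'.map ⟨f, hf⟩ := by
    ext i
    rw [hT i, mem_map]
    rfl
  have hmem : ∀ j, f j ∈ T ↔ j ∈ T' := by
    intro j
    rw [hT]
    constructor
    · rintro ⟨j', hj', h⟩
      rwa [← hf h]
    · intro h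
      exact ⟨j, h, rfl⟩
  -- the sums
  have hXl : ∀ (s : Fin 2 → Gr r) (v : R → V),
      Xl lab T s v = Xl (fun i => lab (f i)) T' s (fun j => v (f j)) := by
    intro s v
    unfold Xl
    rw [hTm]
    simp only [sum_map, Function.Embedding.coeFn_mk]
  have hrow : ∀ (s : Fin 2 → Gr r) (v : R → V) (j : R'),
      row D lab N T s v (f j) =
        row D (fun i => lab (f i)) (fun i j => N (f i) (f j)) T' s (fun j => v (f j)) j := by
    intro s v j
    unfold row
    rw [hTm]
    simp only [sum_map, Function.Embedding.coeFn_mk]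
  have hinj : ∀ v w : R → V, (∀ i, i ∉ T → v i = 0) → (∀ i, i ∉ T → w i = 0) →
      (∀ i ∈ T, v i = w i) → v = w := by
    intro v w hv hw h
    funext i
    by_cases hi : i ∈ T
    · exact h i hi
    · rw [hv i hi, hw i hi]
  constructor
  · have himg : {x | Sol D (fun i => lab (f i)) (fun i j => N (f i) (f j)) T' x} =
        (fun x : (Fin 2 → Gr r) × (R → V) => (x.1, fun j => x.2 (f j))) ''
          {x | Sol D lab N T x} := by
      ext y
      simp only [Set.mem_ofPred_eq, Set.mem_image]
      constructor
      · rintro ⟨h1, h2, h3⟩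
        have hext : ∀ j, Function.extend f y.2 0 (f j) = y.2 j := fun j => hf.extend_apply _ _ _
        have hfun : (fun j => Function.extend f y.2 0 (f j)) = y.2 := funext hext
        refine ⟨(y.1, Function.extend f y.2 0), ⟨?_, ?_, ?_⟩, ?_⟩
        · intro i hi
          change Function.extend f y.2 0 i = 0
          by_cases h : ∃ j, f j = i
          · obtain ⟨j, rfl⟩ := h
            rw [hext]
            exact h1 j fun hj => hi ((hmem j).2 hj)
          · rw [Function.extend_apply' _ _ _ h]
            rfl
        · change Xl lab T y.1 (Function.extend f y.2 0) ∈ D.W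
          rw [hXl, hfun]
          exact h2
        · intro i hi
          change row D lab N T y.1 (Function.extend f y.2 0) i = 0
          obtain ⟨j, hj, rfl⟩ := (hT i).1 hi
          rw [hrow, hfun]
          exact h3 j hj
        · exact Prod.ext rfl hfun
      · rintro ⟨x, ⟨h1, h2, h3⟩, rfl⟩
        refine ⟨?_, ?_, ?_⟩
        · intro j hj
          exact h1 (f j) fun h => hj ((hmem j).1 h)
        · change Xl (fun i => lab (f i)) T' x.1 (fun j => x.2 (f j)) ∈ D.W
          rw [← hXl]
          exact h2
        · intro j hj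
          change row D (fun i => lab (f i)) (fun i j => N (f i) (f j)) T' x.1
            (fun j => x.2 (f j)) j = 0
          rw [← hrow]
          exact h3 (f j) ((hmem j).2 hj)
    rw [himg]
    refine (Set.InjOn.ncard_image ?_).symm
    rintro x ⟨hx, -, -⟩ y ⟨hy, -, -⟩ hxy
    have e1 : x.1 = y.1 := (Prod.ext_iff.1 hxy).1
    have e2 : (fun j => x.2 (f j)) = fun j => y.2 (f j) := (Prod.ext_iff.1 hxy).2
    refine Prod.ext e1 (hinj _ _ hx hy fun i hi => ?_)
    obtain ⟨j, -, rfl⟩ := (hT i).1 hi
    exact congrFun e2 j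
  · apply Set.Finite.of_finite_image
      (f := fun x : (Fin 2 → Gr r) × (R → V) => (x.1, fun t : T => x.2 t.1)) (Set.toFinite _)
    rintro x ⟨hx, -, -⟩ y ⟨hy, -, -⟩ hxy
    have e1 : x.1 = y.1 := (Prod.ext_iff.1 hxy).1
    have e2 : (fun t : T => x.2 t.1) = fun t : T => y.2 t.1 := (Prod.ext_iff.1 hxy).2
    refine Prod.ext e1 (hinj _ _ hx hy fun i hi => ?_)
    exact congrFun e2 ⟨i, hi⟩

end Pool.Agent.N853.GK
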